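import Mathlib
import Pool.Agent.H88.Fp2
import Pool.Agent.H88.FpDefs

open Pool.Agent.H88.Fp

theorem Pool.Agent.Results.MP_259edd_an.Yes.result (p : ℝ) (hp : 0 < p) (hp1 : p < 1)
    (M X : Type) [MetricSpace M] [CompleteSpace M] (o : M) [AddCommGroup X] [Module ℝ X]
    (ν : X → ℝ) (δ : M → X) (h : IsFree ℝ p o ν δ) (ι : Type) (K : ι → Set M)
    (hK : ∀ i, IsClosed (K i)) : ⋂ i, cspan ℝ ν δ (K i) ⊆ cspan ℝ ν δ (⋂ i, K i) := by
  letI := nacg h.banach hp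
  have hν : ∀ x : X, ‖x‖ = ν x ^ p := fun _ => rfl
  intro μ hμ
  exact (mem_cspan h.banach hp hν).2 ((h.fr hp hp1.le hν).inter hK fun i =>
    (mem_cspan h.banach hp hν).1 (Set.mem_iInter.1 hμ i))
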